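import Pool.Agent.W680.WH.Stm

/-!
# Project WHH, part KN3
-/

set_option autoImplicit false

namespace Pool.Agent.W419.WH

open scoped ComplexConjugate InnerProductSpace
open ContinuousLinearMap Filter
open Pool.Agent.W680.WH

/-- limits of averages in a closed invariant subspace -/
theorem erg_mem (f : E →L[ℂ] E) (hf : ‖f‖ ≤ 1) (S : Submodule ℂ E) (hS : IsClosed (S : Set E))
    (hfS : ∀ x ∈ S, f x ∈ S) (F : E) (hF : F ∈ S) :
    ∃ G ∈ S, f G = G ∧ ∀ v : E, f v = v → ⟪v, G⟫_ℂ = ⟪v, F⟫_ℂ := by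
  set K : Submodule ℂ E := f.eqLocus (1 : E →L[ℂ] E) with hK
  have hKmem : ∀ v : E, v ∈ K ↔ f v = v := fun v => Iff.rfl
  have ht := f.tendsto_birkhoffAverage_orthogonalProjection hf F
  have hit : ∀ j : ℕ, f^[j] F ∈ S := by
    intro j
    induction j with
    | zero => exact hF
    | succ j ih =>
      rw [Function.iterate_succ_apply']
      exact hfS _ ih
  have hav : ∀ n : ℕ, birkhoffAverage ℂ f _root_.id n F ∈ S := by
    intro n
    unfold birkhoffAverage birkhoffSum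
    exact S.smul_mem _ (S.sum_mem (fun j _ => hit j))
  refine ⟨(K.orthogonalProjectionOnto F : E), ?_, ?_, ?_⟩
  · exact hS.mem_of_tendsto ht (Eventually.of_forall hav)
  · exact (hKmem _).1 (K.orthogonalProjectionOnto F).2
  · intro v hv
    have hvK : v ∈ K := (hKmem v).2 hv
    have h0 : ⟪F - (K.orthogonalProjectionOnto F : E), v⟫_ℂ = 0 :=
      K.starProjection_inner_eq_zero F v hvK
    rw [inner_sub_left, sub_eq_zero] at h0
    rw [← inner_conj_symm, ← h0, inner_conj_symm]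

theorem kn3_ (hA : S_OPA) (hC : S_OPC) (hR : S_OPR) : S_KN3 := by
  intro P m k W A l hm hP hPm hk hW hl hAZ hA0 hWZ hWA hAb
  obtain ⟨⟨hZZi, hZiZ, -, -⟩, -, ⟨hZe, hZie, -⟩, -⟩ := hA
  obtain ⟨co_eb, co_Z, co_Zi, -, co_add, co_smul, -, -, co_ext, inner_eb, -, -, -, -, hdense, -,
    hcomm, -⟩ := hC
  obtain ⟨Re, RZ, -, Rmul, R1, Radj, Rco⟩ := hR
  obtain ⟨c, hc, hAb⟩ := hAb
  have hkk : ((k⁻¹ : Circle) : ℂ) * (k : ℂ) = 1 := by
    rw [← Circle.coe_mul, inv_mul_cancel, Circle.coe_one]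
  -- the operator N
  set Wi : E →L[ℂ] E := ((W⁻¹ : (E →L[ℂ] E)ˣ) : E →L[ℂ] E) with hWi
  have hWWi : (W : E →L[ℂ] E) * Wi = 1 := W.mul_inv
  have hWiW : Wi * (W : E →L[ℂ] E) = 1 := W.inv_mul
  have h1 : Wi * Z = (k : ℂ) • (Z * Wi) := by
    calc Wi * Z = Wi * (Z * (W : E →L[ℂ] E)) * Wi := by
          rw [mul_assoc, mul_assoc, hWWi, mul_one]
      _ = Wi * ((k : ℂ) • ((W : E →L[ℂ] E) * Z)) * Wi := by rw [hWZ]
      _ = (k : ℂ) • ((Wi * (W : E →L[ℂ] E)) * Z * Wi) := by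
          rw [mul_smul_comm, smul_mul_assoc]; simp only [mul_assoc]
      _ = (k : ℂ) • (Z * Wi) := by rw [hWiW, one_mul]
  have hNZ : (R k⁻¹ * Wi) * Z = Z * (R k⁻¹ * Wi) := by
    rw [mul_assoc, h1, mul_smul_comm, ← mul_assoc, RZ, smul_mul_assoc, smul_smul,
      mul_comm (k : ℂ), hkk, one_smul, mul_assoc]
  have hNA : (R k⁻¹ * Wi) * A = A * (R k⁻¹ * Wi) := hcomm _ _ hNZ hAZ
  have hRA : R k⁻¹ * A = A * (l • ((R k⁻¹ * Wi) * R k⁻¹)) := by
    calc R k⁻¹ * A = (R k⁻¹ * Wi) * ((W : E →L[ℂ] E) * A) := by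
          rw [mul_assoc, ← mul_assoc Wi, hWiW, one_mul]
      _ = (R k⁻¹ * Wi) * (l • (A * R k⁻¹)) := by rw [hWA]
      _ = l • (((R k⁻¹ * Wi) * A) * R k⁻¹) := by rw [mul_smul_comm, mul_assoc (R k⁻¹ * Wi)]
      _ = A * (l • ((R k⁻¹ * Wi) * R k⁻¹)) := by
          rw [hNA, mul_smul_comm, mul_assoc A]
  -- the range of A
  set S : Submodule ℂ E := LinearMap.range (A : E →ₗ[ℂ] E) with hSdef
  have hSmem : ∀ x : E, A x ∈ S := fun x => ⟨x, rfl⟩
  have hScl : IsClosed (S : Set E) := by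
    have ha : AntilipschitzWith (Real.toNNReal c⁻¹) A := by
      refine ContinuousLinearMap.antilipschitz_of_bound A (fun x => ?_)
      rw [Real.coe_toNNReal _ (inv_nonneg.2 hc.le)]
      have := hAb x
      rw [inv_mul_eq_div, le_div_iff₀ hc, mul_comm]
      exact this
    have := ha.isClosed_range A.uniformContinuous
    exact this
  have hSR : ∀ x ∈ S, R k⁻¹ x ∈ S := by
    rintro x ⟨g, rfl⟩
    have : R k⁻¹ (A g) = A ((l • ((R k⁻¹ * Wi) * R k⁻¹)) g) := by
      have h := congrArg (fun T : E →L[ℂ] E => T g) hRA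
      exact h
    exact this ▸ hSmem _
  have hSZ : ∀ x ∈ S, Z x ∈ S := by
    rintro x ⟨g, rfl⟩
    have : Z (A g) = A (Z g) := by
      have h := congrArg (fun T : E →L[ℂ] E => T g) hAZ
      exact h.symm
    exact this ▸ hSmem _
  have hAZi : A * Zi = Zi * A := by
    calc A * Zi = (Zi * Z) * (A * Zi) := by rw [hZiZ, one_mul]
      _ = Zi * ((Z * A) * Zi) := by rw [mul_assoc, mul_assoc]
      _ = Zi * (A * (Z * Zi)) := by rw [← hAZ, mul_assoc]
      _ = Zi * A := by rw [hZZi, mul_one]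
  have hSZi : ∀ x ∈ S, Zi x ∈ S := by
    rintro x ⟨g, rfl⟩
    have : Zi (A g) = A (Zi g) := by
      have h := congrArg (fun T : E →L[ℂ] E => T g) hAZi
      exact h.symm
    exact this ▸ hSmem _
  -- the base vector
  set F : E := A (eb 0) with hF
  have heb0 : eb 0 ≠ 0 := by
    intro h
    have h2 := co_eb 0 0
    have h3 := co_smul 0 (eb 0) 0
    rw [zero_smul, ← h, h2] at h3
    simp at h3
  have hF0 : F ≠ 0 := by
    intro h
    have h2 := hAb (eb 0)
    rw [← hF, h, norm_zero] at h2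
    have h3 : 0 < ‖eb 0‖ := norm_pos_iff.2 heb0
    have := mul_pos hc h3
    linarith
  have co_zero : ∀ n, co (0 : E) n = 0 := by
    intro n
    have h := co_smul 0 (0 : E) n
    rw [zero_smul, zero_mul] at h
    exact h
  obtain ⟨n0, hn0⟩ : ∃ n0, co F n0 ≠ 0 := by
    by_contra hcon
    push Not at hcon
    exact hF0 (co_ext F 0 (fun n => by rw [hcon n, co_zero]))
  -- the contraction
  set f : E →L[ℂ] E := ((k ^ n0 : Circle) : ℂ) • R k⁻¹ with hf
  have hRn : ∀ x : E, ‖R k⁻¹ x‖ = ‖x‖ := by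
    intro x
    have h1 : ⟪R k⁻¹ x, R k⁻¹ x⟫_ℂ = ⟪x, x⟫_ℂ := by
      rw [← ContinuousLinearMap.adjoint_inner_left, Radj]
      have h2 := congrArg (fun T : E →L[ℂ] E => T x) (Rmul (k⁻¹)⁻¹ k⁻¹)
      rw [inv_mul_cancel, R1] at h2
      have h3 : R (k⁻¹)⁻¹ (R k⁻¹ x) = x := h2
      rw [h3]
    rw [inner_self_eq_norm_sq_to_K, inner_self_eq_norm_sq_to_K] at h1
    have h4 : ‖R k⁻¹ x‖ ^ 2 = ‖x‖ ^ 2 := by exact_mod_cast h1
    exact (sq_eq_sq₀ (norm_nonneg _) (norm_nonneg _)).1 h4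
  have hfn : ‖f‖ ≤ 1 := by
    refine ContinuousLinearMap.opNorm_le_bound _ zero_le_one (fun x => ?_)
    rw [hf, _root_.smul_apply, norm_smul, Circle.norm_coe, hRn]
  have hfS : ∀ x ∈ S, f x ∈ S := by
    intro x hx
    rw [hf, _root_.smul_apply]
    exact S.smul_mem _ (hSR x hx)
  have hfco : ∀ (x : E) (n : ℤ), co (f x) n = ((k ^ (n0 - n) : Circle) : ℂ) * co x n := by
    intro x n
    rw [hf, _root_.smul_apply, co_smul, Rco, ← mul_assoc, ← Circle.coe_mul,
      inv_zpow', ← zpow_add, sub_eq_add_neg]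
  obtain ⟨G, hGS, hfG, hGi⟩ := erg_mem f hfn S hScl hfS F (hSmem _)
  have hGn : ∀ n : ℤ, n ≠ n0 → co G n = 0 := by
    intro n hn
    have h := hfco G n
    rw [hfG] at h
    have h2 : ((k ^ (n0 - n) : Circle) : ℂ) ≠ 1 := by
      intro h3
      apply hk (n0 - n) (sub_ne_zero.2 (Ne.symm hn))
      exact Circle.ext (by rw [h3, Circle.coe_one])
    have h4 : (1 - ((k ^ (n0 - n) : Circle) : ℂ)) * co G n = 0 := by
      rw [sub_mul, one_mul, ← h, sub_self]
    rcases mul_eq_zero.1 h4 with h5 | h5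
    · exact absurd (sub_eq_zero.1 h5).symm h2
    · exact h5
  have hfe : f (eb n0) = eb n0 := by
    apply co_ext
    intro n
    rw [hfco, co_eb]
    split_ifs with h
    · rw [h, sub_self, zpow_zero, Circle.coe_one, one_mul]
    · rw [mul_zero]
  have hGn0 : co G n0 = co F n0 := by
    have h := hGi (eb n0) hfe
    rw [inner_eb, inner_eb] at h
    have h2 : (om n0 : ℂ) ≠ 0 := by exact_mod_cast (om_pos n0).ne'
    exact mul_left_cancel₀ h2 h
  have hGe : G = co F n0 • eb n0 := by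
    apply co_ext
    intro n
    rw [co_smul, co_eb]
    split_ifs with h
    · rw [h, hGn0, mul_one]
    · rw [hGn n h, mul_zero]
  have hSe0 : eb n0 ∈ S := by
    have h := S.smul_mem (co F n0)⁻¹ hGS
    rw [hGe, smul_smul, inv_mul_cancel₀ hn0, one_smul] at h
    exact h
  have hSe : ∀ n : ℤ, eb n ∈ S := by
    intro n
    refine Int.inductionOn' (motive := fun n => eb n ∈ S) n n0 hSe0 ?_ ?_
    · intro n _ ih
      rw [← hZe]; exact hSZ _ ih
    · intro n _ ih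
      rw [← hZie]; exact hSZi _ ih
  have hspan : Submodule.span ℂ (Set.range eb) ≤ S := by
    rw [Submodule.span_le]
    rintro _ ⟨n, rfl⟩
    exact hSe n
  have hSd : Dense (S : Set E) := hdense.mono hspan
  have hSu : (S : Set E) = Set.univ := by
    rw [← hScl.closure_eq]; exact hSd.closure_eq
  intro y
  have hy : y ∈ (S : Set E) := by rw [hSu]; trivial
  obtain ⟨x, hx⟩ := hy
  exact ⟨x, hx⟩

end Pool.Agent.W419.WH
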